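import Pool.Agent.H2.ED.Targets2
import Pool.Agent.H14.TD.EXT

/-!
# Row FDM: functions with a nonzero jacobian determinant
-/

set_option autoImplicit false

open MvPolynomial

namespace Pool.Agent.H17.ED

theorem deg_pd {k : Type} [Field k] {N : ℕ} (s : Fin N) (p : MvPolynomial (Fin N) k)
    (hp : pderiv s p ≠ 0) : (pderiv s p).totalDegree + 1 ≤ p.totalDegree := by
  have h1 : 1 ≤ p.totalDegree := by
    by_contra h0
    have h2 : p.totalDegree = 0 := by omega
    rw [totalDegree_eq_zero_iff_eq_C] at h2
    rw [h2, pderiv_C] at hp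
    exact hp rfl
  suffices h3 : (pderiv s p).totalDegree ≤ p.totalDegree - 1 by omega
  rw [totalDegree]
  refine Finset.sup_le fun n hn => ?_
  rw [mem_support_iff, coeff_pderiv] at hn
  have h4 : coeff (n + Finsupp.single s 1) p ≠ 0 := fun h5 => hn (by rw [h5]; simp)
  have h6 := le_totalDegree (mem_support_iff.2 h4)
  rw [Finsupp.sum_add_index' (fun _ => rfl) (fun _ _ _ => rfl), Finsupp.sum_single_index rfl] at h6
  omega

theorem const_of_pd {k : Type} [Field k] [CharZero k] {N : ℕ} (f : MvPolynomial (Fin N) k)
    (hp : ∀ s, pderiv s f = 0) : f = C (constantCoeff f) := by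
  ext n
  rw [coeff_C]
  by_cases hn : (0 : Fin N →₀ ℕ) = n
  · rw [if_pos hn, ← hn]; rfl
  · rw [if_neg hn]
    obtain ⟨s, hs⟩ : ∃ s, n s ≠ 0 := by
      by_contra hcon
      push Not at hcon
      exact hn (Finsupp.ext fun s => (hcon s).symm)
    have h1 := congrArg (coeff (n - Finsupp.single s 1)) (hp s)
    rw [coeff_pderiv, coeff_zero] at h1
    have h2 : n - Finsupp.single s 1 + Finsupp.single s 1 = n := by
      apply tsub_add_cancel_of_le
      rw [Finsupp.single_le_iff]
      omega
    rw [h2] at h1
    rcases mul_eq_zero.1 h1 with h3 | h3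
    · exact h3
    · exfalso
      have : (((((n - Finsupp.single s 1 : Fin N →₀ ℕ) s) + 1 : ℕ)) : k) = 0 := by
        push_cast; exact h3
      exact absurd (Nat.cast_eq_zero.1 this) (by omega)

theorem der_aeval {k R : Type} [Field k] [CommRing R] [Algebra k R] {n : ℕ}
    (D : Derivation k R R) (u : Fin n → R) (g : MvPolynomial (Fin n) k) :
    D (aeval u g) = ∑ a, aeval u (pderiv a g) * D (u a) := by
  induction g using MvPolynomial.induction_on with
  | C c =>
    simp only [pderiv_C, map_zero, zero_mul, Finset.sum_const_zero]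
    rw [aeval_C, Derivation.map_algebraMap]
  | add p q hp hq =>
    simp only [map_add, add_mul, Finset.sum_add_distrib, hp, hq]
  | mul_X p i hp =>
    rw [map_mul, aeval_X, Derivation.leibniz, hp, smul_eq_mul, smul_eq_mul]
    have h : ∀ a, aeval u (pderiv a (p * X i)) * D (u a) =
        u i * (aeval u (pderiv a p) * D (u a)) +
          if a = i then aeval u p * D (u a) else 0 := by
      intro a
      rw [Derivation.leibniz, smul_eq_mul, smul_eq_mul, pderiv_X, map_add, map_mul, map_mul,
        aeval_X]
      by_cases hai : a = i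
      · subst hai
        rw [if_pos rfl, Pi.single_eq_same, map_one]
        ring
      · rw [if_neg hai, Pi.single_eq_of_ne (Ne.symm hai), map_zero]
        ring
    simp only [h]
    rw [Finset.sum_add_distrib, Finset.mul_sum, Finset.sum_ite_eq' Finset.univ i,
      if_pos (Finset.mem_univ i)]
    ring

theorem pf_FDM : Pool.Agent.H2.ED.T_FDM := by
  intro k R K _ _ _ _ _ _ _ _ _ n D u hinj hfg htr hdet
  have hkR : Function.Injective (algebraMap k R) := (algebraMap k R).injective
  have key : ∀ d : ℕ, ∀ g : MvPolynomial (Fin n) k, g.totalDegree ≤ d → aeval u g = 0 →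
      g = 0 := by
    intro d
    induction d with
    | zero =>
      intro g hg h0
      have h1 : g.totalDegree = 0 := by omega
      rw [totalDegree_eq_zero_iff_eq_C] at h1
      rw [h1, aeval_C] at h0
      rw [h1, (map_eq_zero_iff _ hkR).1 h0, C_0]
    | succ d ih =>
      intro g hg h0
      have h1 : Matrix.vecMul (fun a => aeval u (pderiv a g)) (Matrix.of fun a j => D j (u a)) =
          0 := by
        funext j
        show ∑ a, aeval u (pderiv a g) * D j (u a) = 0
        rw [← der_aeval, h0, map_zero]
      have h2 := Matrix.eq_zero_of_vecMul_eq_zero hdet h1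
      have h3 : ∀ a, pderiv a g = 0 := by
        intro a
        by_contra hne
        apply hne
        have h4 := deg_pd a g hne
        exact ih _ (by omega) (congrFun h2 a)
      have h5 := const_of_pd g h3
      rw [h5, aeval_C] at h0
      rw [h5, (map_eq_zero_iff _ hkR).1 h0, C_0]
  have hind : AlgebraicIndependent k u := by
    rw [algebraicIndependent_iff]
    intro g hg
    exact key _ g le_rfl hg
  have hind2 : AlgebraicIndependent k (fun i => algebraMap R K (u i)) :=
    hind.map' (f := IsScalarTower.toAlgHom k R K) hinj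
  have hbas : IsTranscendenceBasis k (fun i => algebraMap R K (u i)) := by
    apply hind2.isTranscendenceBasis_of_trdeg_le_of_finite
    rw [htr, Cardinal.mk_fin]
  exact Pool.Agent.H14.TD.fin_of_alg hfg _ hbas.isAlgebraic

end Pool.Agent.H17.ED
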